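import Pool.Agent.W477.GM.Stms

/-!
# Well-founded models: the statements
-/

set_option linter.all false

namespace Pool.Agent.W477.GM

open FirstOrder FirstOrder.Language
open Pool.Agent.Helper672.Plain (LSet Mem)
open Pool.Agent.H635Amen (ZF)

/-- Rasiowa-Sikorski together with a countable closure. -/
def P_EXT2 : Prop := ∀ (P : Type 1) [PartialOrder P] [OrderTop P] (N : Type 1) (K : Type)
  [Countable K] (R : K → List N → P → N → Prop) (x0 : N),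
  (∀ k l q, ∃ r, r ≤ q ∧ ∃ x, R k l r x) →
  ∃ (G : Set P) (D : Set N), IsFil G ∧ x0 ∈ D ∧ D.Countable ∧
    ∀ k l, (∀ x, x ∈ l → x ∈ D) → ∃ r, r ∈ G ∧ ∃ x, x ∈ D ∧ R k l r x

/-- A generic object with ranks, countable. -/
structure GO2 (G : Set QQ) (D0 : Nm QQ → Prop) : Prop extends GO G D0 where
  cnt : {x | D0 x}.Countable
  wf : ∀ x y, D0 x → D0 y → (∃ p, p ∈ G ∧ fmem x y p) →
    ∃ z, D0 z ∧ rk z < rk y ∧ ∃ p, p ∈ G ∧ feq x z p

def P_GO2 : Prop := ∃ G D0, GO2 G D0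

def P_MAIN2 : Prop := ∃ (M : Type 1) (_ : LSet.Structure M) (V : Set M) (b r g : M),
  Countable M ∧ WellFounded (Mem : M → M → Prop) ∧
  ZF M ∧ ZF V ∧ (∀ x, x ∈ V → ∀ y, Mem y x → y ∈ V) ∧ b ∈ V ∧ r ∈ V ∧
  IsForcing b r ∧ IsGeneric V b r g ∧ (∀ x, ∃ τ, τ ∈ V ∧ IsValue g τ x) ∧
  ¬ V.Definable₁ LSet V

end Pool.Agent.W477.GM
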