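import Pool.Agent.W477.GM.Ext2
import Pool.Agent.W477.GM.Go2
import Pool.Agent.W477.GM.Main2
import Pool.Agent.W308.GM.EQ
import Pool.Agent.W597.GM.PR
import Pool.Agent.W977.GM.Act
import Pool.Agent.W917.GM.FC
import Pool.Agent.W790.GM.HSF
import Pool.Agent.W381.GM.Dec
import Pool.Agent.W554.GM.Orb
import Pool.Agent.W797.GM.Fam
import Pool.Agent.W303.GM.Set
import Pool.Agent.W160.GM.ZF1
import Pool.Agent.W320.GM.Zfi
import Pool.Agent.W499.GM.ZF2
import Pool.Agent.W490.GM.ZF3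
import Pool.Agent.W311.GM.ZFF
import Pool.Agent.W918.GM.Truth
import Pool.Agent.W683.GM.Conv
import Pool.Agent.W428.GM.ZFM
import Pool.Agent.W19.GM.CAX
import Pool.Agent.W816.GM.Kap
import Pool.Agent.W402.GM.Sysc
import Pool.Agent.W376.GM.Dist
import Pool.Agent.W89.GM.HomK
import Pool.Agent.W168.GM.High
import Pool.Agent.W465.GM.Lift
import Pool.Agent.W565.GM.LiftHS
import Pool.Agent.W828.GM.Cod
import Pool.Agent.W191.GM.Fin
import Pool.Agent.W800.GM.VG1
import Pool.Agent.W764.GM.VG2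
import Pool.Agent.W391.GM.Po
import Pool.Agent.W253.GM.Gen
import Pool.Agent.W359.GM.Satf
import Pool.Agent.W924.GM.SIG
import Pool.Agent.W782.GM.Tau
import Pool.Agent.W999.GM.Seq1
import Pool.Agent.W637.GM.Seq2
import Pool.Agent.W701.GM.Seq3
import Pool.Agent.W639.GM.ND

/-!
# The theorem
-/

namespace Pool.Agent.W477.GM

open Pool.Agent.W477.GM

theorem all_EQ : P_EQ := W308EQ.eq_holds
theorem all_PR : P_PR := W597PR.pr_holds all_EQ
theorem all_ACT : P_ACT := Pool.Agent.W977.GM.Act.act_holds all_EQ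
theorem all_FC : P_FC := W917FC.fc_holds all_EQ all_ACT
theorem all_HS : P_HS := W790HS.hs_holds all_EQ all_ACT all_PR
theorem all_DEC : P_DEC := D381.dec_holds all_EQ all_ACT all_FC all_HS
theorem all_ORB : P_ORB := W554.orb_holds all_ACT all_HS
theorem all_FAM : P_FAM := W797Fam.fam_holds all_ACT all_HS all_ORB
theorem all_SET : P_SET := W303.set_holds all_EQ all_ACT all_HS
theorem all_ZF1 : P_ZF1 := W160ZF1.zf1_holds all_EQ all_ACT all_FC all_HS all_SET all_DEC all_PR
theorem all_ZFI : P_ZFI := W320.zfi_holds all_EQ all_FC all_HS all_PR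
theorem all_ZF2 : P_ZF2 := W499ZF2.zf2_holds all_EQ all_ACT all_FC all_HS all_SET all_DEC
theorem all_ZF3 : P_ZF3 := R490.zf3_holds all_EQ all_ACT all_FC all_HS all_SET all_DEC all_ORB
theorem all_ZFF : P_ZFF := W311ZFF.zff_holds all_ZF1 all_ZFI all_ZF2 all_ZF3
theorem all_REL : P_REL := W311ZFF.rel_holds
theorem all_TRUTH : P_TRUTH := W918Truth.truth_holds all_EQ all_FC
theorem all_CONV : P_CONV := W683Conv.conv_holds
theorem all_CONV2 : P_CONV2 := W683Conv.conv2_holds
theorem all_ZFM : P_ZFM := Pool.Agent.W428.GM.ZFM.zfm_holds all_CONV all_CONV2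
theorem all_CAX : P_CAX := W19CAX.cax_holds
theorem all_MG : P_MG := W19CAX.mg_holds
theorem all_KAP : P_KAP := Kap816.kap_holds
theorem all_SYSC : P_SYSC := Sysc402.sysc_holds
theorem all_DIST : P_DIST := W376Dist.dist_holds
theorem all_HOMK : P_HOMK := W89K.homk_holds all_EQ all_ACT all_FC all_HS all_KAP all_SYSC
theorem all_HIGH : P_HIGH := H168.high_holds all_EQ all_ACT all_FC all_HS all_DEC all_KAP all_SYSC
  all_DIST all_HOMK all_MG
theorem all_LIFT : P_LIFT := W465Lift.lift_holds all_EQ all_FC all_PR all_CAX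
theorem all_LIFTHS : P_LIFTHS := W565LiftHS.lifths_holds all_EQ all_ACT all_LIFT all_CAX all_KAP
  all_SYSC
theorem all_COD : P_COD := W828Cod.cod_holds all_EQ all_ACT all_PR all_HS all_LIFT all_CAX
  all_KAP all_SYSC
theorem all_FIN : P_FIN := W191Fin.fin_holds all_EQ all_FC all_HS all_PR
theorem all_VG1 : P_VG1 := W800VG1.vg1_holds all_EQ all_ACT all_FC all_PR all_HS all_DEC all_FAM
  all_LIFT all_LIFTHS all_COD all_CAX all_KAP all_SYSC
theorem all_VG2 : P_VG2 := W764.vg2_holds all_EQ all_FC all_PR all_HS all_LIFT all_LIFTHS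
  all_COD all_FIN all_VG1 all_CAX all_KAP all_SYSC
theorem all_PO : P_PO := H391Po.po_holds all_EQ all_FC all_PR all_HS all_LIFT all_COD all_FIN
  all_CAX all_KAP all_SYSC
theorem all_GEN : P_GEN := W253Gen.gen_holds all_EQ all_FC all_PR all_HS all_LIFT all_COD all_FIN
  all_CAX all_KAP all_SYSC
theorem all_SATF : P_SATF := W359Satf.satf_holds
theorem all_SIG : P_SIG := SIG924.sig_holds all_EQ all_ACT all_LIFT all_HS all_CAX all_KAP
  all_SYSC
theorem all_TAU : P_TAU := W782Tau.tau_holds all_ACT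
theorem all_ON : P_ON := W782Tau.on_holds
theorem all_SEQ1 : P_SEQ1 := W999S1.seq1_holds all_EQ all_ACT all_HS all_CAX all_KAP all_SYSC
theorem all_SEQ2 : P_SEQ2 := Pool.Agent.W637.GM.Seq2.seq2_holds all_EQ all_PR
theorem all_SEQ3 : P_SEQ3 := Sq3W701.seq3_holds all_EQ all_ACT all_PR all_LIFT all_SEQ2 all_CAX
theorem all_ND : P_ND := ND639.nd_holds all_EQ all_ACT all_FC all_HS all_LIFT all_LIFTHS all_SIG
  all_TAU all_ON all_SEQ1 all_SEQ3 all_CAX all_KAP all_SYSC
theorem all_GO2 : P_GO2 := Go2.go_holds all_EQ all_FC all_HS all_LIFT all_LIFTHS all_COD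
  Ext2.ext_holds all_VG2 all_ND all_CAX all_KAP all_SYSC
theorem all_MAIN2 : P_MAIN2 := main2_holds all_EQ all_FC all_HS all_LIFT all_LIFTHS all_COD
  all_ZFF all_HIGH all_TRUTH all_CONV all_ZFM all_REL all_SATF all_PO all_GEN all_GO2 all_CAX
  all_KAP all_SYSC

end Pool.Agent.W477.GM
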