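import Mathlib

/-!
# Names, forcing, symmetric names: definitions

`Nm P` is the type of names for a class forcing `P : Type 1` over the sets `Type`.
-/

set_option linter.all false

namespace Pool.Agent.W477.GM

/-! ### Names -/

/-- Names. The label of the element `x i` is the set `{u | U i u}` of conditions. -/
inductive Nm (P : Type 1) : Type 1
  | mk (ι : Type) (U : ι → P → Prop) (x : ι → Nm P) : Nm P

section names

variable {P : Type 1} [PartialOrder P] [OrderTop P]

/-- `q` is below some condition of the label. -/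
def Lab (U : P → Prop) (q : P) : Prop := ∃ u, U u ∧ q ≤ u

/-- Forced equality. -/
def feq : Nm P → Nm P → P → Prop
  | .mk ι U x, .mk κ W y => fun p =>
    (∀ i q, q ≤ p → Lab (U i) q → ∃ r, r ≤ q ∧ ∃ j, Lab (W j) r ∧ feq (x i) (y j) r) ∧
    (∀ j q, q ≤ p → Lab (W j) q → ∃ r, r ≤ q ∧ ∃ i, Lab (U i) r ∧ feq (x i) (y j) r)

/-- Forced membership. -/
def fmem (x : Nm P) : Nm P → P → Prop
  | .mk _ W y => fun p => ∀ q, q ≤ p → ∃ r, r ≤ q ∧ ∃ j, Lab (W j) r ∧ feq x (y j) r

/-- The action of an automorphism on names. -/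
def act (g : P ≃o P) : Nm P → Nm P
  | .mk ι U x => .mk ι (fun i u => U i (g.symm u)) (fun i => act g (x i))

/-- The rank of a name. -/
noncomputable def rk : Nm P → Ordinal.{0}
  | .mk _ _ x => ⨆ i, Order.succ (rk (x i))

/-- The canonical name of a set. -/
def chk : PSet.{0} → Nm P
  | .mk α A => .mk α (fun _ u => u = ⊤) (fun a => chk (A a))

/-- The name of the unordered pair. -/
def prN (x y : Nm P) : Nm P := .mk Bool (fun _ u => u = ⊤) (fun b => cond b x y)

/-- The name of the ordered pair. -/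
def opN (x y : Nm P) : Nm P := prN (prN x x) (prN x y)

end names

/-! ### Formulas -/

/-- Formulas of set theory with named variables. -/
inductive Fm : Type
  | eq (i j : ℕ)
  | mem (i j : ℕ)
  | fls
  | imp (a b : Fm)
  | all (i : ℕ) (a : Fm)

namespace Fm

def neg (a : Fm) : Fm := imp a fls
def and (a b : Fm) : Fm := neg (imp a (neg b))
def or (a b : Fm) : Fm := imp (neg a) b
def iff (a b : Fm) : Fm := and (imp a b) (imp b a)
def ex (i : ℕ) (a : Fm) : Fm := neg (all i (neg a))

/-- A bound of the variables. -/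
def bd : Fm → ℕ
  | eq i j => max i j + 1
  | mem i j => max i j + 1
  | fls => 0
  | imp a b => max (bd a) (bd b)
  | all i a => max (i + 1) (bd a)

/-! The axioms; the free variables are parameters. -/

def axExt : Fm := imp (all 2 (iff (mem 2 0) (mem 2 1))) (eq 0 1)
def axFound : Fm := imp (ex 1 (mem 1 0)) (ex 1 (and (mem 1 0) (all 2 (imp (mem 2 0) (neg (mem 2 1))))))
def axPair : Fm := ex 2 (all 3 (iff (mem 3 2) (or (eq 3 0) (eq 3 1))))
def axUnion : Fm := ex 1 (all 2 (iff (mem 2 1) (ex 3 (and (mem 3 0) (mem 2 3)))))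
def axPow : Fm := ex 1 (all 2 (iff (mem 2 1) (all 3 (imp (mem 3 2) (mem 3 0)))))
def axInf : Fm := ex 0 (and (ex 1 (and (mem 1 0) (all 2 (neg (mem 2 1)))))
  (all 1 (imp (mem 1 0) (ex 2 (and (mem 2 0) (all 3 (iff (mem 3 2) (or (mem 3 1) (eq 3 1)))))))))
def axSep (φ : Fm) (m : ℕ) : Fm :=
  ex (m + 1) (all 0 (iff (mem 0 (m + 1)) (and (mem 0 m) φ)))
def axRep (φ : Fm) (m : ℕ) : Fm :=
  imp (all 0 (imp (mem 0 m) (ex (m + 2) (all 1 (iff φ (eq 1 (m + 2)))))))
    (ex (m + 1) (all 1 (iff (mem 1 (m + 1)) (ex 0 (and (mem 0 m) φ)))))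

/-- The axioms of ZF. -/
inductive IsAx : Fm → Prop
  | ext : IsAx axExt
  | found : IsAx axFound
  | pair : IsAx axPair
  | union : IsAx axUnion
  | pow : IsAx axPow
  | inf : IsAx axInf
  | sep (φ : Fm) (m : ℕ) : bd φ ≤ m → 1 ≤ m → IsAx (axSep φ m)
  | rep (φ : Fm) (m : ℕ) : bd φ ≤ m → 2 ≤ m → IsAx (axRep φ m)

/-! Formulas for pairs (the variables `k l m` are auxiliary and have to be fresh). -/

/-- `p = {x, y}` -/
def isPr (p x y m : ℕ) : Fm := all m (iff (mem m p) (or (eq m x) (eq m y)))
/-- `p = (x, y)` -/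
def isOp (p x y k l m : ℕ) : Fm :=
  ex k (ex l (and (isPr k x x m) (and (isPr l x y m) (isPr p k l m))))
/-- `(x, y) ∈ f` -/
def inP (x y f p k l m : ℕ) : Fm := ex p (and (isOp p x y k l m) (mem p f))

end Fm

section forcing

variable {P : Type 1} [PartialOrder P] [OrderTop P]

/-- The forcing relation for the class `D` of names. -/
def Fc (D : Nm P → Prop) : Fm → (ℕ → Nm P) → P → Prop
  | .eq i j, v, p => feq (v i) (v j) p
  | .mem i j, v, p => fmem (v i) (v j) p
  | .fls, _, _ => False
  | .imp a b, v, p => ∀ q, q ≤ p → Fc D a v q → Fc D b v q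
  | .all i a, v, p => ∀ x, D x → Fc D a (Function.update v i x) p

end forcing

/-- Satisfaction, with quantifiers restricted to `A`. -/
def SatR {M : Type 1} (mem : M → M → Prop) (A : M → Prop) : Fm → (ℕ → M) → Prop
  | .eq i j, v => v i = v j
  | .mem i j, v => mem (v i) (v j)
  | .fls, _ => False
  | .imp a b, v => SatR mem A a v → SatR mem A b v
  | .all i a, v => ∀ x, A x → SatR mem A a (Function.update v i x)

/-! ### Symmetric systems -/

/-- The data of a symmetric system for a class forcing. `rho a` restricts a condition to the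
stage `a`. -/
structure SysData (P : Type 1) [PartialOrder P] where
  G : Set (P ≃o P)
  E : Type 1
  fix : E → Set (P ≃o P)
  rho : Ordinal.{0} → P → P

/-- The axioms of symmetric systems. -/
structure SysAx {P : Type 1} [PartialOrder P] (S : SysData P) : Prop where
  one : 1 ∈ S.G
  mul : ∀ g h, g ∈ S.G → h ∈ S.G → g * h ∈ S.G
  inv : ∀ g, g ∈ S.G → g⁻¹ ∈ S.G
  comm : ∀ g h, g ∈ S.G → h ∈ S.G → g * h = h * g
  ne : Nonempty S.E
  fsub : ∀ e g, g ∈ S.fix e → g ∈ S.G
  fone : ∀ e, 1 ∈ S.fix e
  fmul : ∀ e g h, g ∈ S.fix e → h ∈ S.fix e → g * h ∈ S.fix e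
  finv : ∀ e g, g ∈ S.fix e → g⁻¹ ∈ S.fix e
  dir : ∀ e e', ∃ e'', ∀ g, g ∈ S.fix e'' → g ∈ S.fix e ∧ g ∈ S.fix e'
  le_rho : ∀ a p, p ≤ S.rho a p
  mono : ∀ a p q, p ≤ q → S.rho a p ≤ S.rho a q
  rho_rho : ∀ a b p, a ≤ b → S.rho b (S.rho a p) = S.rho a p
  small : ∀ a, Small.{0} {p : P // S.rho a p = p}
  rho_act : ∀ g, g ∈ S.G → ∀ a p, S.rho a (g p) = g (S.rho a p)
  hom : ∀ a p q, S.rho a q ≤ S.rho a p →
    ∃ g, g ∈ S.G ∧ (∀ u, S.rho a u = u → g u = u) ∧ ∃ s, s ≤ p ∧ s ≤ g q

section sym

variable {P : Type 1} [PartialOrder P] [OrderTop P] (S : SysData P)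

/-- Hereditarily symmetric names, with labels from one stage. -/
def HS : Nm P → Prop
  | .mk ι U x => (∃ a, ∀ i u, U i u → S.rho a u = u) ∧
      (∃ e, ∀ g, g ∈ S.fix e → ∀ p, feq (act g (.mk ι U x)) (.mk ι U x) p) ∧ ∀ i, HS (x i)

/-- All the labels are in the stage `a`. -/
def Liv (a : Ordinal.{0}) : Nm P → Prop
  | .mk ι U x => (∀ i u, U i u → S.rho a u = u) ∧ ∀ i, Liv a (x i)

/-- Bounds of power sets. -/
def Pow : Prop := ∀ x : Nm P, HS S x → ∃ (κ : Type) (z : κ → Nm P), (∀ k, HS S (z k)) ∧
  ∀ w p, HS S w → (∀ y, HS S y → ∀ q, q ≤ p → fmem y w q → fmem y x q) →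
    ∃ q, q ≤ p ∧ ∃ k, feq w (z k) q

end sym

/-! ### The conditions -/

/-- The coordinates: level, number, side. -/
abbrev J : Type 1 := Ordinal.{0} × ℕ × Bool

/-- The cardinal of the level. -/
noncomputable def kap (β : Ordinal.{0}) : Cardinal.{0} :=
  Order.succ (Cardinal.beth (Ordinal.omega0 * (β + 1)))

theorem kap_pos (β : Ordinal.{0}) : 0 < (kap β).ord := by
  rw [← Cardinal.ord_zero, Cardinal.ord_lt_ord]
  exact lt_of_le_of_lt zero_le (Order.lt_succ _)

/-- Conditions: an element `c` of `C` and finitely many binary sequences of length `< kap β`. -/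
structure Cn (C : Type) (L : C → ℕ∞) : Type 1 where
  c : C
  len : J → Ordinal.{0}
  bit : J → Ordinal.{0} → Bool
  fin : {j | len j ≠ 0}.Finite
  lt : ∀ j, len j < (kap j.1).ord
  off : ∀ j o, len j ≤ o → bit j o = false
  sup : ∀ j, len j ≠ 0 → (j.2.1 : ℕ∞) < L c

section cn

variable {C : Type} {L : C → ℕ∞}

theorem Cn.ext' {p q : Cn C L} (h1 : p.c = q.c) (h2 : ∀ j, p.len j = q.len j)
    (h3 : ∀ j o, o < p.len j → p.bit j o = q.bit j o) : p = q := by
  have h4 : p.len = q.len := funext h2
  have h5 : p.bit = q.bit := by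
    funext j o
    by_cases ho : o < p.len j
    · exact h3 j o ho
    · rw [p.off j o (not_lt.1 ho), q.off j o (by rw [← h2]; exact not_lt.1 ho)]
  cases p; cases q
  simp_all

variable [PartialOrder C] [OrderTop C]

instance : PartialOrder (Cn C L) where
  le p q := p.c ≤ q.c ∧ ∀ j, q.len j ≤ p.len j ∧ ∀ o, o < q.len j → p.bit j o = q.bit j o
  le_refl p := ⟨le_rfl, fun j => ⟨le_rfl, fun _ _ => rfl⟩⟩
  le_trans p q r h1 h2 := ⟨h1.1.trans h2.1, fun j => ⟨(h2.2 j).1.trans (h1.2 j).1,
    fun o ho => ((h1.2 j).2 o (lt_of_lt_of_le ho (h2.2 j).1)).trans ((h2.2 j).2 o ho)⟩⟩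
  le_antisymm p q h1 h2 := Cn.ext' (le_antisymm h1.1 h2.1)
    (fun j => le_antisymm (h2.2 j).1 (h1.2 j).1)
    (fun j o ho => (h1.2 j).2 o (lt_of_lt_of_le ho (h2.2 j).1))

theorem Cn.le_def {p q : Cn C L} : p ≤ q ↔
    p.c ≤ q.c ∧ ∀ j, q.len j ≤ p.len j ∧ ∀ o, o < q.len j → p.bit j o = q.bit j o := Iff.rfl

/-- The condition `c` without sequences. -/
def cz (c : C) : Cn C L where
  c := c
  len _ := 0
  bit _ _ := false
  fin := by simp
  lt j := kap_pos _
  off _ _ _ := rfl
  sup j h := absurd rfl h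

instance : OrderTop (Cn C L) where
  top := cz ⊤
  le_top p := ⟨le_top, fun j => ⟨zero_le, fun o ho => absurd ho (not_lt.2 zero_le)⟩⟩

/-- The restriction of a condition to the coordinates in `K`. -/
noncomputable def rs (K : J → Prop) (p : Cn C L) : Cn C L := by
  classical exact
  { c := p.c
    len := fun j => if K j then p.len j else 0
    bit := fun j o => if K j then p.bit j o else false
    fin := p.fin.subset fun j hj => by
      by_cases h : K j
      · simpa [h] using hj
      · simp [h] at hj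
    lt := fun j => by
      by_cases h : K j
      · simp only [h, if_true]; exact p.lt j
      · simp only [h, if_false]; exact kap_pos _
    off := fun j o ho => by
      by_cases h : K j
      · simp only [h, if_true] at ho ⊢; exact p.off j o ho
      · simp only [h, if_false]
    sup := fun j hj => by
      by_cases h : K j
      · exact p.sup j (by simpa [h] using hj)
      · simp [h] at hj }

/-- The flip of a condition by `z`. -/
noncomputable def fl (z : J → Ordinal.{0} → Bool) (p : Cn C L) : Cn C L := by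
  classical exact
  { c := p.c
    len := p.len
    bit := fun j o => if o < p.len j then xor (p.bit j o) (z j o) else false
    fin := p.fin
    lt := p.lt
    off := fun j o ho => if_neg (not_lt.2 ho)
    sup := p.sup }

/-- `z` is nonzero at finitely many coordinates. -/
def FinS (z : J → Ordinal.{0} → Bool) : Prop := {j | ∃ o, z j o = true}.Finite

variable (C L) in
/-- The symmetric system of the flips. -/
noncomputable def sysC : SysData (Cn C L) where
  G := {g | ∃ z, FinS z ∧ ∀ p, g p = fl z p}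
  E := Finset (Ordinal.{0} × ℕ)
  fix e := {g | ∃ z, FinS z ∧ (∀ j, (j.1, j.2.1) ∈ e → ∀ o, z j o = false) ∧ ∀ p, g p = fl z p}
  rho a := rs fun j => j.1 < a

end cn

/-- The conditions on `C` and `L`. -/
structure CAx (C : Type) [PartialOrder C] [OrderTop C] (L : C → ℕ∞) : Prop where
  cnt : Countable C
  anti : ∀ c d, c ≤ d → L d ≤ L c
  cof : ∀ c (n : ℕ), ∃ d, d ≤ c ∧ (n : ℕ∞) < L d

/-! ### The two forcings -/

/-- Finite binary sequences, ordered by reverse extension. -/
structure Str : Type where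
  l : List Bool

theorem Str.ext' {a b : Str} (h : a.l = b.l) : a = b := by cases a; cases b; simp_all

instance : PartialOrder Str where
  le a b := b.l <+: a.l
  le_refl a := List.prefix_refl _
  le_trans a b c h1 h2 := List.IsPrefix.trans h2 h1
  le_antisymm a b h1 h2 := Str.ext' (h2.eq_of_length_le (h1.length_le))

instance : OrderTop Str where
  top := ⟨[]⟩
  le_top a := List.nil_prefix

/-- The length. -/
def slen (c : Str) : ℕ∞ := (c.l.length : ℕ∞)

/-- The first forcing. -/
abbrev PP : Type 1 := Cn Unit (fun _ => (⊤ : ℕ∞))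
/-- The second forcing. -/
abbrev QQ : Type 1 := Cn Str slen

/-- The symmetric system of the first forcing. -/
noncomputable abbrev SP : SysData PP := sysC Unit (fun _ => (⊤ : ℕ∞))
/-- The symmetric system of the second forcing. -/
noncomputable abbrev SQ : SysData QQ := sysC Str slen

/-- The projection. -/
def pj (q : QQ) : PP where
  c := ()
  len := q.len
  bit := q.bit
  fin := q.fin
  lt := q.lt
  off := q.off
  sup _ _ := ENat.coe_lt_top _

/-- The canonical map from names of the first forcing to names of the second forcing. -/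
def lift : Nm PP → Nm QQ
  | .mk ι U x => .mk ι (fun i q => U i (pj q)) (fun i => lift (x i))

/-- The names from the first forcing. -/
def VN (x : Nm QQ) : Prop := ∃ y, HS SP y ∧ x = lift y

/-! ### Twists -/

/-- The swap of the coordinates. -/
noncomputable def swp (c : Str) (β : Ordinal.{0}) (j : J) : J :=
  open Classical in if j.1 = β ∧ c.l.getD j.2.1 false = true then (j.1, j.2.1, !j.2.2) else j

/-- `s` is the twist of level `β`. -/
def IsSig (β : Ordinal.{0}) (s : QQ ≃o QQ) : Prop :=
  ∀ q : QQ, (s q).c = q.c ∧ ∀ j, (s q).len j = q.len (swp q.c β j) ∧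
    ∀ o, (s q).bit j o = q.bit (swp q.c β j) o

/-- `t` changes the digit `n` of `c` and nothing else. -/
def IsTau (n : ℕ) (t : QQ ≃o QQ) : Prop :=
  ∀ q : QQ, (t q).len = q.len ∧ (t q).bit = q.bit ∧ (t q).c.l.length = q.c.l.length ∧
    ∀ m, m < q.c.l.length → (t q).c.l.getD m false =
      if m = n then !(q.c.l.getD m false) else q.c.l.getD m false

/-! ### Particular names -/

/-- The code of a finite sequence. -/
def cd (c : Str) : PSet.{0} := PSet.ofNat (Encodable.encode c.l)

section codes

variable {P : Type 1} [PartialOrder P] [OrderTop P]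

/-- The set of the finite sequences. -/
def bN : Nm P := .mk Str (fun _ u => u = ⊤) (fun c => chk (cd c))

/-- The order of the finite sequences. -/
def rN : Nm P := .mk {c : Str × Str // c.1 ≤ c.2} (fun _ u => u = ⊤)
  (fun c => opN (chk (cd c.1.1)) (chk (cd c.1.2)))

end codes

/-- The generic filter on the finite sequences. -/
def gN : Nm QQ := .mk Str (fun c q => q = cz c) (fun c => chk (cd c))

/-- An index set for the ordinals below `(kap β).ord`. -/
def Ib (β : Ordinal.{0}) : Type := Shrink.{0} (Set.Iio (kap β).ord)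

/-- The ordinal of an index. -/
noncomputable def ov {β : Ordinal.{0}} (i : Ib β) : Ordinal.{0} :=
  ((equivShrink.{0} (Set.Iio (kap β).ord)).symm i).1

/-- The name of the symmetric difference of the generic set `(β, n, s)` and `z`. -/
noncomputable def xN (on : Ordinal.{0} → PSet.{0}) (β : Ordinal.{0}) (n : ℕ) (s : Bool)
    (z : Ib β → Bool) : Nm PP :=
  .mk (Ib β) (fun i p => rs (fun j => j.1 < β + 1) p = p ∧ ov i < p.len (β, n, s) ∧
    xor (p.bit (β, n, s) (ov i)) (z i) = true) (fun i => chk (on (ov i)))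

/-- The name of the class of the generic set modulo the sets of the ground model. -/
noncomputable def aN (on : Ordinal.{0} → PSet.{0}) (β : Ordinal.{0}) (n : ℕ) (s : Bool) : Nm PP :=
  .mk (Ib β → Bool) (fun _ u => u = ⊤) (fun z => xN on β n s z)

/-- The name of the sequence. -/
noncomputable def sN (on : Ordinal.{0} → PSet.{0}) (β : Ordinal.{0}) : Nm PP :=
  .mk ℕ (fun _ u => u = ⊤) (fun n => opN (chk (PSet.ofNat n)) (aN on β n false))

end Pool.Agent.W477.GM
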