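import Pool.Agent.W477.GM.Stms2

/-!
# Rasiowa-Sikorski together with a countable closure (after helper696)
-/

set_option maxHeartbeats 1000000

namespace Pool.Agent.W477.GM.Ext2

open Pool.Agent.W477.GM

theorem ext_holds : P_EXT2 := by
  intro P _ _ N K _ R x0 h
  rcases isEmpty_or_nonempty K with hK | hK
  · refine ⟨{⊤}, {x0}, ⟨⟨⊤, rfl⟩, ?_, ?_⟩, rfl, Set.countable_singleton _, fun k => hK.elim k⟩
    · intro p q hp hpq
      rw [Set.mem_singleton_iff] at hp ⊢
      rw [hp] at hpq
      exact top_le_iff.mp hpq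
    · intro p q hp hq
      rw [Set.mem_singleton_iff] at hp hq
      exact ⟨⊤, rfl, by rw [hp], by rw [hq]⟩
  · obtain ⟨e, he⟩ := exists_surjective_nat (K × List ℕ)
    choose f hf1 g hg using h
    obtain ⟨step, hstep⟩ : ∃ step : K × List ℕ → P × List N → P × List N,
        ∀ t s, step t s = (f t.1 (t.2.map (fun i => s.2.getD i x0)) s.1,
          s.2 ++ [g t.1 (t.2.map (fun i => s.2.getD i x0)) s.1]) := ⟨_, fun _ _ => rfl⟩
    obtain ⟨s, hs0, hs1⟩ : ∃ s : ℕ → P × List N, s 0 = (⊤, [x0]) ∧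
        ∀ n, s (n + 1) = step (e (Nat.unpair n).1) (s n) :=
      ⟨fun n => Nat.rec (⊤, [x0]) (fun n s => step (e (Nat.unpair n).1) s) n, rfl, fun _ => rfl⟩
    have hp1 : ∀ n, (s (n + 1)).1 ≤ (s n).1 := by
      intro n
      rw [hs1, hstep]
      exact hf1 _ _ _
    have hl1 : ∀ n, (s n).2 <+: (s (n + 1)).2 := by
      intro n
      rw [hs1, hstep]
      exact List.prefix_append _ _
    have hp : ∀ n m, n ≤ m → (s m).1 ≤ (s n).1 := fun n m hnm => by
      induction m, hnm using Nat.le_induction with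
      | base => exact le_rfl
      | succ m _ ih => exact (hp1 m).trans ih
    have hl : ∀ n m, n ≤ m → (s n).2 <+: (s m).2 := fun n m hnm => by
      induction m, hnm using Nat.le_induction with
      | base => exact List.prefix_rfl
      | succ m _ ih => exact ih.trans (hl1 m)
    refine ⟨{q | ∃ n, (s n).1 ≤ q}, {x | ∃ n, x ∈ (s n).2}, ⟨⟨⊤, 0, le_top⟩, ?_, ?_⟩, ⟨0, ?_⟩, ?_, ?_⟩
    · rintro p q ⟨n, hn⟩ hpq
      exact ⟨n, hn.trans hpq⟩
    · rintro p q ⟨n, hn⟩ ⟨m, hm⟩
      exact ⟨(s (max n m)).1, ⟨_, le_rfl⟩, (hp _ _ (le_max_left n m)).trans hn,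
        (hp _ _ (le_max_right n m)).trans hm⟩
    · rw [hs0]
      exact List.mem_singleton.mpr rfl
    · have e1 : {x | ∃ n, x ∈ (s n).2} = ⋃ n, {x | x ∈ (s n).2} := by
        ext x; simp
      rw [e1]
      exact Set.countable_iUnion fun n => (List.finite_toSet (s n).2).countable
    · intro k l hl'
      have key : ∀ l : List N, (∀ x, x ∈ l → ∃ n, x ∈ (s n).2) → ∃ (B : ℕ) (is : List ℕ),
          ∀ B', B ≤ B' → is.map (fun i => (s B').2.getD i x0) = l := by
        intro l
        induction l with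
        | nil => intro _; exact ⟨0, [], fun _ _ => rfl⟩
        | cons x l ih =>
          intro hx
          obtain ⟨B, is, hB⟩ := ih (fun y hy => hx y (List.mem_cons_of_mem _ hy))
          obtain ⟨n, hn⟩ := hx x List.mem_cons_self
          obtain ⟨i, hi, hi2⟩ := List.mem_iff_getElem.mp hn
          refine ⟨max B n, i :: is, ?_⟩
          intro B' hB'
          rw [List.map_cons, hB B' ((le_max_left _ _).trans hB')]
          obtain ⟨t, ht⟩ := hl n B' ((le_max_right _ _).trans hB')
          have : (s B').2.getD i x0 = x := by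
            rw [← ht, List.getD_append _ _ _ _ hi, List.getD_eq_getElem _ _ hi, hi2]
          rw [this]
      obtain ⟨B, is, hB⟩ := key l hl'
      obtain ⟨a, ha⟩ := he (k, is)
      have hn : B ≤ Nat.pair a B := Nat.right_le_pair a B
      have e1 := hs1 (Nat.pair a B)
      rw [Nat.unpair_pair, ha, hstep] at e1
      simp only at e1
      rw [hB _ hn] at e1
      refine ⟨f k l (s (Nat.pair a B)).1, ⟨Nat.pair a B + 1, ?_⟩, g k l (s (Nat.pair a B)).1,
        ⟨Nat.pair a B + 1, ?_⟩, hg _ _ _⟩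
      · rw [e1]
      · rw [e1]
        simp

end Pool.Agent.W477.GM.Ext2
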