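import Pool.Agent.W477.GM.Stms

set_option maxHeartbeats 1000000
set_option linter.all false

namespace Pool.Agent.W477.GM

open FirstOrder FirstOrder.Language
open Pool.Agent.Helper672.Plain (LSet Mem)
open Pool.Agent.H635Amen (ZF)

/-- The structure given by a relation. -/
@[reducible] def mkStr {M : Type 1} (mem : M → M → Prop) : LSet.Structure M where
  funMap f := Empty.elim f
  RelMap {n} r x := match n, r, x with
    | _, Pool.Agent.Helper672.Plain.Sym.mem, x => mem (x 0) (x 1)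

theorem mem_mkStr {M : Type 1} (mem : M → M → Prop) (x y : M) :
    @Mem M (mkStr mem) x y ↔ mem x y := Iff.rfl

theorem mem_sub {M : Type 1} [LSet.Structure M] (V : Set M) (x y : V) :
    Mem x y ↔ Mem x.1 y.1 := by
  have h : (fun i : Fin 2 => ((![x, y] i).1 : M)) = ![x.1, y.1] := by
    funext i
    fin_cases i <;> rfl
  show Structure.RelMap (L := LSet) _ (fun i : Fin 2 => ((![x, y] i).1 : M)) ↔ _
  rw [h]
  exact Iff.rfl

theorem main_holds (h : P_EQ) (h2 : P_FC) (h3 : P_HS) (hl : P_LIFT) (hlh : P_LIFTHS)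
    (hco : P_COD) (hzf : P_ZFF) (hhi : P_HIGH) (ht : P_TRUTH) (hcv : P_CONV) (hz : P_ZFM)
    (hr : P_REL) (hsf : P_SATF) (hpo : P_PO) (hge : P_GEN) (hgo : P_GO) (hc : P_CAX)
    (hk : P_KAP) (hs : P_SYSC) : P_MAIN := by
  obtain ⟨G, D0, go⟩ := hgo
  have sQ : SysAx SQ := hs hk Str slen hc.2
  have sP : SysAx SP := hs hk Unit _ hc.1
  have E := h QQ
  have F := h2 QQ (HS SQ)
  obtain ⟨M, mem, cl, hcl, heq, hmem, htr⟩ := ht QQ G D0 go.fil ⟨_, go.g⟩
  letI st : LSet.Structure M := mkStr mem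
  have hM : ∀ x y : M, Mem x y ↔ mem x y := fun x y => Iff.rfl
  have hMm : (Mem : M → M → Prop) = mem := by
    funext x y; exact propext (hM x y)
  set D1 : Nm QQ → Prop := fun x => D0 x ∧ VN x with hD1
  set V : Set M := {m | ∃ x, D1 x ∧ cl x = m} with hV
  -- the truth lemmas
  have trQ : ∀ φ v, (∀ i, D0 (v i)) → (SatR Mem (fun _ => True) φ (fun i => cl (v i)) ↔
      ∃ p, p ∈ G ∧ Fc (HS SQ) φ v p) := by
    intro φ v hv
    have h5 := htr (HS SQ) D0 (fun x hx => hx) go.gen φ v hv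
    have h6 : (fun m => ∃ x, D0 x ∧ cl x = m) = (fun _ : M => True) := by
      funext m; exact propext ⟨fun _ => trivial, fun _ => hcl m⟩
    rw [h6] at h5
    rw [hMm]
    exact h5
  have trV : ∀ φ v, (∀ i, D1 (v i)) → (SatR Mem (fun m => m ∈ V) φ (fun i => cl (v i)) ↔
      ∃ p, p ∈ G ∧ Fc VN φ v p) := by
    intro φ v hv
    rw [hMm]
    exact htr VN D1 (fun x hx => hx.1) go.genV φ v hv
  have lft : ∀ v : ℕ → M, ∃ w : ℕ → Nm QQ, (∀ i, D0 (w i)) ∧ v = fun i => cl (w i) := by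
    intro v
    choose w hw using fun i => hcl (v i)
    exact ⟨w, fun i => (hw i).1, funext fun i => (hw i).2.symm⟩
  have lftV : ∀ v : ℕ → M, (∀ i, v i ∈ V) → ∃ w : ℕ → Nm QQ, (∀ i, D1 (w i)) ∧
      v = fun i => cl (w i) := by
    intro v hv
    choose w hw using hv
    exact ⟨w, fun i => (hw i).1, funext fun i => (hw i).2.symm⟩
  obtain ⟨p0, hp0⟩ := go.fil.ne
  have vb : VN (lift bN : Nm QQ) := by
    obtain ⟨h4, _⟩ := hco
    exact ⟨bN, ((h4 PP).hs SP sP).1, rfl⟩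
  have vr : VN (lift rN : Nm QQ) := by
    obtain ⟨h4, _⟩ := hco
    exact ⟨rN, ((h4 PP).hs SP sP).2, rfl⟩
  have hupd : ∀ (w : ℕ → Nm QQ) i x, (fun j => cl (Function.update w i x j)) =
      Function.update (fun j => cl (w j)) i (cl x) := by
    intro w i x
    funext j
    by_cases hj : j = i
    · subst hj; simp
    · simp [hj]
  refine ⟨M, st, V, cl (lift bN), cl (lift rN), cl gN, ?_, ?_, ?_, ⟨_, ⟨go.b, vb⟩, rfl⟩,
    ⟨_, ⟨go.r, vr⟩, rfl⟩, ?_, ?_, ?_, ?_⟩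
  · -- ZF M
    refine hz M ⟨cl gN⟩ fun σ hσ v => ?_
    obtain ⟨w, hw, rfl⟩ := lft v
    exact (trQ σ w hw).2 ⟨p0, hp0, hzf QQ SQ sQ (hhi Str slen hc.2) σ hσ w
      (fun i => go.hs _ (hw i)) p0⟩
  · -- ZF V
    refine hz V ⟨⟨cl (lift bN), ⟨_, ⟨go.b, vb⟩, rfl⟩⟩⟩ fun σ hσ v => ?_
    have h5 := hr M Mem (fun m => m ∈ V) σ v
    have h6 : (fun a b : {x : M // x ∈ V} => Mem a.1 b.1) = (Mem : V → V → Prop) := by
      funext a b; exact propext (mem_sub V a b).symm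
    rw [h6] at h5
    refine h5.1 ?_
    obtain ⟨w, hw, hvw⟩ := lftV (fun i => (v i).1) (fun i => (v i).2)
    rw [hvw]
    refine (trV σ w hw).2 ⟨p0, hp0, ?_⟩
    choose w' hw' using fun i => (hw i).2
    have h7 : w = fun i => lift (w' i) := funext fun i => (hw' i).2
    rw [h7, hl.fc]
    exact hzf PP SP sP (hhi Unit _ hc.1) σ hσ w' (fun i => (hw' i).1) _
  · -- transitive
    rintro x ⟨y, ⟨hy0, hyV⟩, rfl⟩ m hm
    obtain ⟨z, hz0, rfl⟩ := hcl m
    obtain ⟨t, ht0, htV, hp⟩ := go.tra z y hz0 hy0 hyV ((hmem z y hz0 hy0).1 hm)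
    exact ⟨t, ⟨ht0, htV⟩, ((heq z t hz0 ht0).2 hp).symm⟩
  · -- forcing notion
    set v : ℕ → Nm QQ := fun i => if i = 0 then lift bN else if i = 1 then lift rN else gN with hv
    have hv0 : ∀ i, D0 (v i) := by
      intro i
      simp only [hv]
      split_ifs
      exacts [go.b, go.r, go.g]
    have h5 := ((hsf M (fun i => cl (v i))).2.1) ((trQ poFm v hv0).2 ⟨p0, hp0,
      (hpo v (fun i => go.hs _ (hv0 i)) rfl rfl rfl p0).1⟩)
    exact h5
  · -- generic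
    set v : ℕ → Nm QQ := fun i => if i = 0 then lift bN else if i = 1 then lift rN else gN with hv
    have hv0 : ∀ i, D0 (v i) := by
      intro i
      simp only [hv]
      split_ifs
      exacts [go.b, go.r, go.g]
    refine (hsf M (fun i => cl (v i))).2.2 V ⟨cl (lift bN), ⟨_, ⟨go.b, vb⟩, rfl⟩⟩ ?_
    rintro d ⟨x, ⟨hx0, hxV⟩, rfl⟩
    rw [← hupd]
    have hw0 : ∀ i, D0 (Function.update v 3 x i) := by
      intro i
      by_cases hi : i = 3
      · subst hi; simpa using hx0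
      · simpa [hi] using hv0 i
    refine ⟨(trQ filFm _ hw0).2 ⟨p0, hp0, (hpo _ (fun i => go.hs _ (hw0 i)) ?_ ?_ ?_ p0).2⟩,
      (trQ genFm _ hw0).2 ⟨p0, hp0, hge _ (fun i => go.hs _ (hw0 i)) ?_ ?_ ?_ ?_ p0⟩⟩
    · simp [hv]
    · simp [hv]
    · simp [hv]
    · simp [hv]
    · simp [hv]
    · simp [hv]
    · simpa using hxV
  · -- values
    intro m
    obtain ⟨x, hx, rfl⟩ := hcl m
    obtain ⟨τ, hτ, hτ0, hval⟩ := go.val x hx
    refine ⟨cl (lift τ), ⟨_, ⟨hτ0, τ, hτ, rfl⟩, rfl⟩, ?_⟩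
    set v : ℕ → Nm QQ := fun i => if i = 0 then gN else if i = 1 then lift τ else x with hv
    have hv0 : ∀ i, D0 (v i) := by
      intro i
      simp only [hv]
      split_ifs
      exacts [go.g, hτ0, hx]
    exact (hsf M (fun i => cl (v i))).1 ((trQ valFm v hv0).2 ⟨p0, hp0,
      hval v (fun i => go.hs _ (hv0 i)) rfl rfl rfl p0⟩)
  · -- not definable
    intro hdef
    obtain ⟨φ, v, hv, hφ⟩ := hcv M V V ⟨cl (lift bN), ⟨_, ⟨go.b, vb⟩, rfl⟩⟩ hdef
    obtain ⟨w, hw, rfl⟩ := lftV v hv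
    obtain ⟨x, hx0, p, hp, h5⟩ := go.nd φ w hw
    have hu : ∀ i, D0 (Function.update w 0 x i) := by
      intro i
      by_cases hi : i = 0
      · subst hi; simpa using hx0
      · simpa [hi] using (hw i).1
    have h6 := hφ (cl x)
    rw [← hupd, trQ φ _ hu] at h6
    rcases h5 with ⟨hxV, h7⟩ | ⟨h7, h8⟩
    · obtain ⟨q, hq, h9⟩ := h6.1 ⟨x, ⟨hx0, hxV⟩, rfl⟩
      obtain ⟨r, hr', hrp, hrq⟩ := go.fil.dir p q hp hq
      exact h7 r hrp (F.mono _ _ _ _ hrq h9)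
    · obtain ⟨x', ⟨hx'0, y, hy, rfl⟩, hxx⟩ := h6.2 ⟨p, hp, h7⟩
      obtain ⟨q, hq, h9⟩ := (heq x (lift y) hx0 hx'0).1 hxx.symm
      obtain ⟨r, hr', hrp, hrq⟩ := go.fil.dir p q hp hq
      exact h8 r hrp y hy (E.mono _ _ _ _ hrq h9)

end Pool.Agent.W477.GM
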