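import Pool.Agent.H635R2.Statement

/-!
# Definability of the ground model: the notions

`LSet` is the language of set theory, `Mem x y` says that `x` is an element of `y` in the
structure, `ZF M` says that `M` is a model of ZF.
-/

namespace Pool.Agent.W477.GM

open FirstOrder FirstOrder.Language
open Pool.Agent.Helper672.Plain (LSet Mem IsPair IsOrdPair)
open Pool.Agent.H635Amen (ZF)

/-- A subset of a structure for the language of set theory is a structure, with the same
membership. -/
instance subStr {M : Type 1} [LSet.Structure M] (V : Set M) : LSet.Structure V where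
  funMap f := Empty.elim f
  RelMap r x := Structure.RelMap r (fun i => (x i).1)

variable {M : Type 1} [LSet.Structure M]

/-- The ordered pair `(a, b)` is an element of `f`, in the model. -/
def InP (a b f : M) : Prop := ∃ q, IsOrdPair q a b ∧ Mem q f

/-- `(b, r)` is a notion of forcing: `r` is a partial order of `b` with a greatest element
(`InP x y r` says that `x` is stronger than `y`). -/
structure IsForcing (b r : M) : Prop where
  refl : ∀ x, Mem x b → InP x x r
  trans : ∀ x y z, Mem x b → Mem y b → Mem z b → InP x y r → InP y z r → InP x z r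
  antisymm : ∀ x y, Mem x b → Mem y b → InP x y r → InP y x r → x = y
  top : ∃ t, Mem t b ∧ ∀ x, Mem x b → InP x t r

/-- `g` is a `V`-generic filter on the notion of forcing `(b, r)`: it meets all the dense subsets
of `b` that are in `V`. -/
structure IsGeneric (V : Set M) (b r g : M) : Prop where
  sub : ∀ x, Mem x g → Mem x b
  nonempty : ∃ x, Mem x g
  up : ∀ x y, Mem x g → Mem y b → InP x y r → Mem y g
  dir : ∀ x y, Mem x g → Mem y g → ∃ z, Mem z g ∧ InP z x r ∧ InP z y r
  meets : ∀ d, d ∈ V → (∀ x, Mem x d → Mem x b) →
    (∀ x, Mem x b → ∃ y, Mem y d ∧ InP y x r) → ∃ x, Mem x d ∧ Mem x g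

/-- `f` is an evaluation of names by `g`: `f` is a set of pairs `(τ, x)` such that `x` is the set
of all `y` such that `(σ, y)` is in `f` for some `(σ, s)` in `τ` with `s` in `g`, and all such `σ`
are in the domain of `f`. -/
def IsEval (g f : M) : Prop :=
  ∀ τ x, InP τ x f → (∀ σ s, InP σ s τ ∧ Mem s g → ∃ y, InP σ y f) ∧
    ∀ y, Mem y x ↔ ∃ σ s, (InP σ s τ ∧ Mem s g) ∧ InP σ y f

/-- `x` is the value of the name `τ` by the filter `g`. -/
def IsValue (g τ x : M) : Prop := ∃ f, IsEval g f ∧ InP τ x f

end Pool.Agent.W477.GM
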