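import Pool.Agent.W477.GM.Defs
import Pool.Agent.W477.GM.Spec

/-!
# The statements of the steps
-/

set_option linter.all false

namespace Pool.Agent.W477.GM

open FirstOrder FirstOrder.Language
open Pool.Agent.Helper672.Plain (LSet Mem)
open Pool.Agent.H635Amen (ZF)

/-! ### A. Names and forcing -/

structure EqF (P : Type 1) [PartialOrder P] [OrderTop P] : Prop where
  refl : ∀ (x : Nm P) p, feq x x p
  symm : ∀ (x y : Nm P) p, feq x y p → feq y x p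
  trans : ∀ (x y z : Nm P) p, feq x y p → feq y z p → feq x z p
  mono : ∀ (x y : Nm P) p q, q ≤ p → feq x y p → feq x y q
  dense : ∀ (x y : Nm P) p, (∀ q, q ≤ p → ∃ r, r ≤ q ∧ feq x y r) → feq x y p
  mmono : ∀ (x y : Nm P) p q, q ≤ p → fmem x y p → fmem x y q
  mdense : ∀ (x y : Nm P) p, (∀ q, q ≤ p → ∃ r, r ≤ q ∧ fmem x y r) → fmem x y p
  mcongr : ∀ (x x' y y' : Nm P) p, feq x x' p → feq y y' p → fmem x y p → fmem x' y' p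
  child : ∀ (ι : Type) (U : ι → P → Prop) (x : ι → Nm P) i p, Lab (U i) p →
    fmem (x i) (.mk ι U x) p
  ext : ∀ (ι : Type) (U : ι → P → Prop) (x : ι → Nm P) (κ : Type) (W : κ → P → Prop)
    (y : κ → Nm P) p,
    (∀ i q, q ≤ p → fmem (x i) (.mk ι U x) q → fmem (x i) (.mk κ W y) q) →
    (∀ j q, q ≤ p → fmem (y j) (.mk κ W y) q → fmem (y j) (.mk ι U x) q) →
    feq (.mk ι U x) (.mk κ W y) p

/-- A1 -/
def P_EQ : Prop := ∀ (P : Type 1) [PartialOrder P] [OrderTop P], EqF P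

structure PrF (P : Type 1) [PartialOrder P] [OrderTop P] : Prop where
  top : ∀ q : P, Lab (fun u => u = (⊤ : P)) q
  chk_eq : ∀ (a b : PSet.{0}) (p : P), feq (chk a) (chk b) p ↔ a.Equiv b
  chk_mem : ∀ (a b : PSet.{0}) (p : P), fmem (chk a) (chk b) p ↔ a ∈ b
  mem_chk : ∀ (x : Nm P) (b : PSet.{0}) (p : P), fmem x (chk b) p ↔
    ∀ q, q ≤ p → ∃ r, r ≤ q ∧ ∃ a, a ∈ b ∧ feq x (chk a) r
  mem_pr : ∀ (w x y : Nm P) p, fmem w (prN x y) p ↔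
    ∀ q, q ≤ p → ∃ r, r ≤ q ∧ (feq w x r ∨ feq w y r)
  op : ∀ (x y x' y' : Nm P) p, feq (opN x y) (opN x' y') p ↔ feq x x' p ∧ feq y y' p

/-- A2 -/
def P_PR : Prop := ∀ (P : Type 1) [PartialOrder P] [OrderTop P], PrF P

structure ActF (P : Type 1) [PartialOrder P] [OrderTop P] : Prop where
  one : ∀ x : Nm P, act 1 x = x
  mul : ∀ (g h : P ≃o P) (x : Nm P), act (g * h) x = act g (act h x)
  feq : ∀ (g : P ≃o P) (x y : Nm P) p, feq (act g x) (act g y) (g p) ↔ feq x y p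
  fmem : ∀ (g : P ≃o P) (x y : Nm P) p, fmem (act g x) (act g y) (g p) ↔ fmem x y p
  loc : ∀ (g h : P ≃o P) (x : Nm P) p, (∀ q, q ≤ p → g.symm q = h.symm q) →
    GM.feq (act g x) (act h x) p
  rk : ∀ (g : P ≃o P) (x : Nm P), rk (act g x) = rk x
  op : ∀ (g : P ≃o P) (x y : Nm P), act g (opN x y) = opN (act g x) (act g y)
  chk : ∀ (g : P ≃o P) (a : PSet.{0}), act g (chk a : Nm P) = chk a

/-- A3 -/
def P_ACT : Prop := ∀ (P : Type 1) [PartialOrder P] [OrderTop P], ActF P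

structure FcF (P : Type 1) [PartialOrder P] [OrderTop P] (D : Nm P → Prop) : Prop where
  mono : ∀ φ v p q, q ≤ p → Fc D φ v p → Fc D φ v q
  dense : ∀ φ v p, (∀ q, q ≤ p → ∃ r, r ≤ q ∧ Fc D φ v r) → Fc D φ v p
  congr : ∀ φ v w p, (∀ i, feq (v i) (w i) p) → Fc D φ v p → Fc D φ w p
  bd : ∀ (φ : Fm) v w p, (∀ i, i < φ.bd → v i = w i) → (Fc D φ v p ↔ Fc D φ w p)
  equiv : ∀ (g : P ≃o P), (∀ x, D x → D (act g x)) → (∀ x, D x → D (act g⁻¹ x)) → ∀ φ v p,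
    (Fc D φ (fun i => act g (v i)) (g p) ↔ Fc D φ v p)
  neg : ∀ a v p, Fc D (.neg a) v p ↔ ∀ q, q ≤ p → ¬ Fc D a v q
  and : ∀ a b v p, Fc D (.and a b) v p ↔ Fc D a v p ∧ Fc D b v p
  or : ∀ a b v p, Fc D (.or a b) v p ↔ ∀ q, q ≤ p → ∃ r, r ≤ q ∧ (Fc D a v r ∨ Fc D b v r)
  iff : ∀ a b v p, Fc D (.iff a b) v p ↔ ∀ q, q ≤ p → (Fc D a v q ↔ Fc D b v q)
  ex : ∀ i a v p, Fc D (.ex i a) v p ↔
    ∀ q, q ≤ p → ∃ r, r ≤ q ∧ ∃ x, D x ∧ Fc D a (Function.update v i x) r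

/-- A4 -/
def P_FC : Prop := ∀ (P : Type 1) [PartialOrder P] [OrderTop P] (D : Nm P → Prop), FcF P D

/-! ### B. Symmetric systems -/

structure HsF (P : Type 1) [PartialOrder P] [OrderTop P] (S : SysData P) : Prop where
  act : ∀ g, g ∈ S.G → ∀ x, HS S x → HS S (act g x)
  supp : ∀ x, HS S x → ∃ e, ∀ g, g ∈ S.fix e → ∀ p, feq (GM.act g x) x p
  liv : ∀ x, HS S x → ∃ a, Liv S a x
  livs : ∀ (κ : Type) (z : κ → Nm P), (∀ k, HS S (z k)) → ∃ a, ∀ k, Liv S a (z k)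
  liv_mono : ∀ a b x, a ≤ b → Liv S a x → Liv S b x
  fix : ∀ a (g : P ≃o P), (∀ u, S.rho a u = u → g u = u) → ∀ x, Liv S a x → GM.act g x = x
  livact : ∀ g, g ∈ S.G → ∀ a x, Liv S a x → Liv S a (GM.act g x)
  rtop : ∀ a, S.rho a ⊤ = ⊤
  top : ∀ g : P ≃o P, g ⊤ = ⊤
  chk : ∀ a : PSet.{0}, HS S (chk a)
  livchk : ∀ b (a : PSet.{0}), Liv S b (GM.chk a)
  op : ∀ x y, HS S x → HS S y → HS S (opN x y)
  pr : ∀ x y, HS S x → HS S y → HS S (prN x y)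
  child : ∀ (ι : Type) (U : ι → P → Prop) (x : ι → Nm P), HS S (.mk ι U x) → ∀ i, HS S (x i)

/-- B1 -/
def P_HS : Prop := ∀ (P : Type 1) [PartialOrder P] [OrderTop P] (S : SysData P), SysAx S → HsF P S

/-- B2 -/
def P_DEC : Prop := ∀ (P : Type 1) [PartialOrder P] [OrderTop P] (S : SysData P), SysAx S →
  (∀ φ v p a, (∀ i, Liv S a (v i)) → Fc (HS S) φ v p → Fc (HS S) φ v (S.rho a p)) ∧
  (∀ (x y : Nm P) p a, Liv S a x → Liv S a y → feq x y p → feq x y (S.rho a p)) ∧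
  (∀ (x y : Nm P) p a, Liv S a x → Liv S a y → fmem x y p → fmem x y (S.rho a p))

/-- B3 -/
def P_ORB : Prop := ∀ (P : Type 1) [PartialOrder P] [OrderTop P] (S : SysData P), SysAx S →
  ∀ x, HS S x → ∃ (κ : Type) (z : κ → Nm P), (∀ k, ∃ g, g ∈ S.G ∧ z k = act g x) ∧
    ∀ g, g ∈ S.G → ∃ k, act g x = z k

/-- B4 -/
def P_SET : Prop := ∀ (P : Type 1) [PartialOrder P] [OrderTop P] (S : SysData P), SysAx S →
  ∀ (κ : Type) (z : κ → Nm P) (F : Nm P → P → Prop), (∀ k, HS S (z k)) →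
    (∀ y p q, HS S y → q ≤ p → F y p → F y q) →
    (∀ y p, HS S y → (∀ q, q ≤ p → ∃ r, r ≤ q ∧ F y r) → F y p) →
    (∀ y y' p, HS S y → HS S y' → feq y y' p → F y p → F y' p) →
    (∃ e, ∀ g, g ∈ S.fix e → ∀ y p, HS S y → F y p → F (act g y) (g p)) →
    (∃ a, ∀ k p, F (z k) p → F (z k) (S.rho a p)) →
    (∀ y p, HS S y → F y p → ∃ q, q ≤ p ∧ ∃ k, feq y (z k) q) →
    ∃ Y, HS S Y ∧ ∀ y p, HS S y → (fmem y Y p ↔ F y p)

/-- B5 -/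
def P_ZF1 : Prop := ∀ (P : Type 1) [PartialOrder P] [OrderTop P] (S : SysData P), SysAx S →
  ∀ v, (∀ i, HS S (v i)) → ∀ p, Fc (HS S) .axExt v p ∧ Fc (HS S) .axFound v p ∧
    Fc (HS S) .axPair v p ∧ Fc (HS S) .axUnion v p

/-- B6 -/
def P_ZFI : Prop := ∀ (P : Type 1) [PartialOrder P] [OrderTop P] (S : SysData P), SysAx S →
  ∀ v, (∀ i, HS S (v i)) → ∀ p, Fc (HS S) .axInf v p

/-- B7 -/
def P_ZF2 : Prop := ∀ (P : Type 1) [PartialOrder P] [OrderTop P] (S : SysData P), SysAx S →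
  (∀ (φ : Fm) m, φ.bd ≤ m → 1 ≤ m → ∀ v, (∀ i, HS S (v i)) → ∀ p, Fc (HS S) (.axSep φ m) v p) ∧
  (Pow S → ∀ v, (∀ i, HS S (v i)) → ∀ p, Fc (HS S) .axPow v p)

/-- B8 -/
def P_ZF3 : Prop := ∀ (P : Type 1) [PartialOrder P] [OrderTop P] (S : SysData P), SysAx S →
  ∀ (φ : Fm) m, φ.bd ≤ m → 2 ≤ m → ∀ v, (∀ i, HS S (v i)) → ∀ p, Fc (HS S) (.axRep φ m) v p

/-! ### C. Models -/

section

variable {P : Type 1} [PartialOrder P] [OrderTop P]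

/-- Filters of conditions. -/
structure IsFil (G : Set P) : Prop where
  ne : ∃ p, p ∈ G
  up : ∀ p q, p ∈ G → p ≤ q → q ∈ G
  dir : ∀ p q, p ∈ G → q ∈ G → ∃ r, r ∈ G ∧ r ≤ p ∧ r ≤ q

/-- Genericity for the forcing relation of `D` and names in `D1`. -/
structure Gen (D : Nm P → Prop) (G : Set P) (D1 : Nm P → Prop) : Prop where
  sub : ∀ x, D1 x → D x
  dec : ∀ φ v, (∀ i, D1 (v i)) → ∃ p, p ∈ G ∧ (Fc D φ v p ∨ ∀ q, q ≤ p → ¬ Fc D φ v q)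
  wit : ∀ φ i v, (∀ i, D1 (v i)) → (∃ p, p ∈ G ∧ Fc D (.all i φ) v p) ∨
    ∃ x, D1 x ∧ ∃ p, p ∈ G ∧ ∀ q, q ≤ p → ¬ Fc D φ (Function.update v i x) q

end

/-- C1 -/
def P_EXT : Prop := ∀ (P : Type 1) [PartialOrder P] [OrderTop P] (N : Type 1) (K : Type)
  [Countable K] (R : K → List N → P → N → Prop) (x0 : N),
  (∀ k l q, ∃ r, r ≤ q ∧ ∃ x, R k l r x) →
  ∃ (G : Set P) (D : Set N), IsFil G ∧ x0 ∈ D ∧
    ∀ k l, (∀ x, x ∈ l → x ∈ D) → ∃ r, r ∈ G ∧ ∃ x, x ∈ D ∧ R k l r x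

/-- C2 -/
def P_TRUTH : Prop := ∀ (P : Type 1) [PartialOrder P] [OrderTop P] (G : Set P) (D0 : Nm P → Prop),
  IsFil G → (∃ x, D0 x) →
  ∃ (M : Type 1) (mem : M → M → Prop) (cl : Nm P → M),
    (∀ m, ∃ x, D0 x ∧ cl x = m) ∧
    (∀ x y, D0 x → D0 y → (cl x = cl y ↔ ∃ p, p ∈ G ∧ feq x y p)) ∧
    (∀ x y, D0 x → D0 y → (mem (cl x) (cl y) ↔ ∃ p, p ∈ G ∧ fmem x y p)) ∧
    ∀ D D1 : Nm P → Prop, (∀ x, D1 x → D0 x) → Gen D G D1 → ∀ φ v, (∀ i, D1 (v i)) →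
      (SatR mem (fun m => ∃ x, D1 x ∧ cl x = m) φ (fun i => cl (v i)) ↔
        ∃ p, p ∈ G ∧ Fc D φ v p)

/-- C3 -/
def P_CONV : Prop := ∀ (M : Type 1) [LSet.Structure M] (A S : Set M), (∃ a, a ∈ A) →
  A.Definable₁ LSet S → ∃ (φ : Fm) (v : ℕ → M), (∀ i, v i ∈ A) ∧
    ∀ x, x ∈ S ↔ SatR Mem (fun _ => True) φ (Function.update v 0 x)

/-- C4 -/
def P_CONV2 : Prop := ∀ (M : Type 1) [LSet.Structure M] (F : Set (M × M)), Nonempty M →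
  (Set.univ : Set M).Definable₂ LSet F → ∃ (φ : Fm) (v : ℕ → M),
    ∀ x y, (x, y) ∈ F ↔
      SatR Mem (fun _ => True) φ (Function.update (Function.update v 0 x) 1 y)

/-- C5 -/
def P_ZFM : Prop := ∀ (M : Type 1) [LSet.Structure M], Nonempty M →
  (∀ σ, Fm.IsAx σ → ∀ v : ℕ → M, SatR Mem (fun _ => True) σ v) → ZF M

/-- C6 -/
def P_REL : Prop := ∀ (M : Type 1) (mem : M → M → Prop) (A : M → Prop) (φ : Fm)
  (v : ℕ → {x : M // A x}), SatR mem A φ (fun i => (v i).1) ↔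
    SatR (M := {x : M // A x}) (fun a b => mem a.1 b.1) (fun _ => True) φ v

/-! ### D. The conditions -/

/-- D2 -/
def P_CAX : Prop := CAx Unit (fun _ => (⊤ : ℕ∞)) ∧ CAx Str slen

structure KapF : Prop where
  reg : ∀ β, (kap β).IsRegular
  mono : ∀ β γ, β ≤ γ → kap β ≤ kap γ
  unb : ∀ (ι : Type) a, ∃ b, a ≤ b ∧ Cardinal.mk ι < kap b
  stage : ∀ (C : Type) (L : C → ℕ∞), Countable C → ∀ b, ∃ (K : Type)
    (e : K → Cn C L), (∀ p, rs (fun j => j.1 < b) p = p → ∃ k, e k = p) ∧ Cardinal.mk K < kap b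

/-- D3 -/
def P_KAP : Prop := KapF

/-- D1 -/
def P_SYSC : Prop := KapF → ∀ (C : Type) [PartialOrder C] [OrderTop C] (L : C → ℕ∞), CAx C L →
  SysAx (sysC C L)

/-- D4 -/
def P_DIST : Prop := KapF → ∀ (C : Type) [PartialOrder C] [OrderTop C] (L : C → ℕ∞)
  (b : Ordinal.{0}) (e : Finset (Ordinal.{0} × ℕ)) (I : Type) (A : I → Cn C L → Prop)
  (t0 : Cn C L), Cardinal.mk I < kap b →
  (∀ j, ¬ (b ≤ j.1 ∧ (j.1, j.2.1) ∈ e) → t0.len j = 0) →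
  (∀ β n, (β, n) ∈ e → (n : ℕ∞) < L t0.c) →
  (∀ i t t', t' ≤ t → A i t → A i t') →
  ∃ t, t ≤ t0 ∧ t.c = t0.c ∧ (∀ j, ¬ (b ≤ j.1 ∧ (j.1, j.2.1) ∈ e) → t.len j = 0) ∧
    ∀ i, A i t ∨ ∀ t', t' ≤ t → t'.c = t0.c →
      (∀ j, ¬ (b ≤ j.1 ∧ (j.1, j.2.1) ∈ e) → t'.len j = 0) → ¬ A i t'

/-- D5 -/
def P_HOMK : Prop := ∀ (C : Type) [PartialOrder C] [OrderTop C] (L : C → ℕ∞), CAx C L →
  ∀ (K : J → Prop) φ v p,
    (∀ i (g : Cn C L ≃o Cn C L), (∃ z, FinS z ∧ (∀ j, K j → ∀ o, z j o = false) ∧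
      ∀ q, g q = fl z q) → ∀ q, feq (act g (v i)) (v i) q) →
    Fc (HS (sysC C L)) φ v p → Fc (HS (sysC C L)) φ v (rs K p)

/-- The condition with the coordinates in `K` from `u`, and the others from `t`. -/
noncomputable def mg {C : Type} {L : C → ℕ∞} (K : J → Prop) (u t : Cn C L) : Cn C L := by
  classical exact
  { c := u.c
    len := fun j => if K j then u.len j else if (j.2.1 : ℕ∞) < L u.c then t.len j else 0
    bit := fun j o => if K j then u.bit j o else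
      if (j.2.1 : ℕ∞) < L u.c then t.bit j o else false
    fin := (u.fin.union t.fin).subset fun j hj => by
      by_cases h : K j
      · left; simpa [h] using hj
      · by_cases h' : (j.2.1 : ℕ∞) < L u.c
        · right; simpa [h, h'] using hj
        · simp [h, h'] at hj
    lt := fun j => by
      by_cases h : K j
      · simp only [h, if_true]; exact u.lt j
      · by_cases h' : (j.2.1 : ℕ∞) < L u.c
        · simp only [h, h', if_false, if_true]; exact t.lt j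
        · simp only [h, h', if_false]; exact kap_pos _
    off := fun j o ho => by
      by_cases h : K j
      · simp only [h, if_true] at ho ⊢; exact u.off j o ho
      · by_cases h' : (j.2.1 : ℕ∞) < L u.c
        · simp only [h, h', if_false, if_true] at ho ⊢; exact t.off j o ho
        · simp only [h, h', if_false]
    sup := fun j hj => by
      by_cases h : K j
      · exact u.sup j (by simpa [h] using hj)
      · by_cases h' : (j.2.1 : ℕ∞) < L u.c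
        · exact h'
        · simp [h, h'] at hj }

structure MgF (C : Type) [PartialOrder C] [OrderTop C] (L : C → ℕ∞) : Prop where
  c : ∀ K (u t : Cn C L), (mg K u t).c = u.c
  le_u : ∀ K (u t : Cn C L), rs K u = u → mg K u t ≤ u
  mono : ∀ K (u u' t t' : Cn C L), u ≤ u' → t ≤ t' → mg K u t ≤ mg K u' t'
  le_of : ∀ K (r u t : Cn C L), r ≤ u → r ≤ t → r ≤ mg K u t
  rs : ∀ K (u t : Cn C L), rs K (mg K u t) = rs K u
  flip : ∀ K (u t : Cn C L) z, (∀ j, ¬ K j → t.len j ≠ 0 → ∀ o, z j o = false) →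
    fl z (mg K u t) = mg K (fl z u) t
  le_q : ∀ K (s q : Cn C L), s ≤ GM.rs K q → mg K s q ≤ q
  decomp : ∀ (K K' : J → Prop) (r : Cn C L), (∀ j, K j → K' j) →
    GM.rs K' r = mg K (GM.rs K r) (GM.rs K' r)

/-- D7 -/
def P_MG : Prop := ∀ (C : Type) [PartialOrder C] [OrderTop C] (L : C → ℕ∞), CAx C L → MgF C L

/-- D6 -/
def P_HIGH : Prop := ∀ (C : Type) [PartialOrder C] [OrderTop C] (L : C → ℕ∞), CAx C L →
  Pow (sysC C L)

/-! ### E. The extension -/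

structure LiftF : Prop where
  feq : ∀ x y q, feq (lift x) (lift y) q ↔ feq x y (pj q)
  fmem : ∀ x y q, fmem (lift x) (lift y) q ↔ fmem x y (pj q)
  child : ∀ x y q, GM.fmem x (lift y) q → HS SP y →
    ∃ r, r ≤ q ∧ ∃ z, HS SP z ∧ GM.feq x (lift z) r
  proj : ∀ (q : QQ) (r : PP), r ≤ pj q → ∃ q', q' ≤ q ∧ pj q' = r
  fc : ∀ φ v q, Fc VN φ (fun i => lift (v i)) q ↔ Fc (HS SP) φ v (pj q)
  rk : ∀ x, rk (lift x) = rk x
  chk : ∀ a q, GM.feq (lift (chk a)) (chk a) q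
  op : ∀ x y q, GM.feq (lift (opN x y)) (opN (lift x) (lift y)) q

/-- E1 -/
def P_LIFT : Prop := LiftF

/-- E2 -/
def P_LIFTHS : Prop := (∀ x, HS SP x → HS SQ (lift x)) ∧
  (∀ x, HS SP x → ∃ e : Finset (Ordinal.{0} × ℕ), ∀ z, FinS z →
    (∀ j, (j.1, j.2.1) ∈ e → ∀ o, z j o = false) → ∀ g : QQ ≃o QQ, (∀ q, g q = fl z q) →
      ∀ q, feq (act g (lift x)) (lift x) q) ∧
  ∀ (g : PP ≃o PP) (h : QQ ≃o QQ), (∀ q, pj (h q) = g (pj q)) → ∀ x,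
    act h (lift x) = lift (act g x)

/-- E3: names for strings -/
structure CodF (P : Type 1) [PartialOrder P] [OrderTop P] : Prop where
  inj : ∀ c d, (cd c).Equiv (cd d) → c = d
  mem_b : ∀ (x : Nm P) p, fmem x bN p ↔
    ∀ q, q ≤ p → ∃ r, r ≤ q ∧ ∃ c, feq x (chk (cd c)) r
  mem_r : ∀ (x y : Nm P) p, fmem (opN x y) rN p ↔
    ∀ q, q ≤ p → ∃ r, r ≤ q ∧ ∃ c d, c ≤ d ∧ feq x (chk (cd c)) r ∧ feq y (chk (cd d)) r
  hs : ∀ S : SysData P, SysAx S → HS S bN ∧ HS S rN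

def P_COD : Prop := (∀ (P : Type 1) [PartialOrder P] [OrderTop P], CodF P) ∧
  HS SQ gN ∧ (∀ x p, fmem x gN p ↔
    ∀ q, q ≤ p → ∃ r, r ≤ q ∧ ∃ c, r.c ≤ c ∧ feq x (chk (cd c)) r) ∧
  (∀ q, feq (lift bN) bN q) ∧ ∀ q, feq (lift rN) rN q

/-- B9 -/
def P_FAM : Prop := ∀ (P : Type 1) [PartialOrder P] [OrderTop P] (S : SysData P), SysAx S →
  ∀ x, HS S x → ∃ (I : Type) (Y : I → Nm P), (∃ k, Y k = x) ∧ (∀ k, HS S (Y k)) ∧
    (∃ a, ∀ k, Liv S a (Y k)) ∧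
    (∀ k (ι : Type) (U : ι → P → Prop) (y : ι → Nm P), Y k = .mk ι U y → ∀ i, ∃ l, Y l = y i) ∧
    ∀ g, g ∈ S.G → ∀ k, ∃ l, Y l = act g (Y k)

/-- E4 -/
def P_VG1 : Prop := ∀ x, HS SQ x → ∃ τ F, HS SP τ ∧ HS SQ F ∧
  (∀ p, fmem (opN (lift τ) x) F p) ∧
  (∀ t y p, HS SQ t → HS SQ y → fmem (opN t y) F p → ∀ z, HS SQ z →
    (fmem z y p ↔ ∀ q, q ≤ p → ∃ r, r ≤ q ∧ ∃ σ c, HS SQ σ ∧ r.c ≤ c ∧
      fmem (opN σ (chk (cd c))) t r ∧ fmem (opN σ z) F r)) ∧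
  (∀ t p σ c y, HS SQ t → HS SQ y → HS SQ σ → fmem (opN t y) F p → fmem (opN σ (chk (cd c))) t p →
    p.c ≤ c → ∀ q, q ≤ p → ∃ r, r ≤ q ∧ ∃ z, HS SQ z ∧ fmem (opN σ z) F r)

open Fm in
/-- `(x, y) ∈ f`, with the auxiliary variables 10, 11, 12, 13. -/
def fIn (x y f : ℕ) : Fm := inP x y f 10 11 12 13

open Fm in
/-- `IsValue g τ x` with `g = 0`, `τ = 1`, `x = 2`. -/
def valFm : Fm := ex 3 (and
  (all 4 (all 5 (imp (fIn 4 5 3) (and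
    (all 6 (all 7 (imp (and (fIn 6 7 4) (mem 7 0)) (ex 8 (fIn 6 8 3)))))
    (all 8 (iff (mem 8 5) (ex 6 (ex 7 (and (and (fIn 6 7 4) (mem 7 0)) (fIn 6 8 3)))))))))) 
  (fIn 1 2 3))

open Fm in
/-- `IsForcing b r` with `b = 0`, `r = 1`. -/
def poFm : Fm := and
  (and (all 4 (imp (mem 4 0) (fIn 4 4 1)))
    (all 4 (all 5 (all 6 (imp (mem 4 0) (imp (mem 5 0) (imp (mem 6 0) (imp (fIn 4 5 1)
      (imp (fIn 5 6 1) (fIn 4 6 1))))))))))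
  (and (all 4 (all 5 (imp (mem 4 0) (imp (mem 5 0) (imp (fIn 4 5 1) (imp (fIn 5 4 1) (eq 4 5)))))))
    (ex 4 (and (mem 4 0) (all 5 (imp (mem 5 0) (fIn 5 4 1))))))

open Fm in
/-- Filters, with `b = 0`, `r = 1`, `g = 2`. -/
def filFm : Fm := and
  (and (all 4 (imp (mem 4 2) (mem 4 0))) (ex 4 (mem 4 2)))
  (and (all 4 (all 5 (imp (mem 4 2) (imp (mem 5 0) (imp (fIn 4 5 1) (mem 5 2))))))
    (all 4 (all 5 (imp (mem 4 2) (imp (mem 5 2) (ex 6 (and (mem 6 2) (and (fIn 6 4 1)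
      (fIn 6 5 1)))))))))

open Fm in
/-- If `3` is a dense subset then it meets `g`, with `b = 0`, `r = 1`, `g = 2`. -/
def genFm : Fm := imp (all 4 (imp (mem 4 3) (mem 4 0)))
  (imp (all 4 (imp (mem 4 0) (ex 5 (and (mem 5 3) (fIn 5 4 1)))))
    (ex 4 (and (mem 4 3) (mem 4 2))))

/-- E5 -/
def P_FIN : Prop := ∀ (P : Type 1) [PartialOrder P] [OrderTop P] (S : SysData P), SysAx S →
  ∀ x y f, x < 10 → y < 10 → f < 10 → ∀ v, (∀ i, HS S (v i)) → ∀ p,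
    (Fc (HS S) (fIn x y f) v p ↔ fmem (opN (v x) (v y)) (v f) p)

/-- E6 -/
def P_VG2 : Prop := ∀ x, HS SQ x → ∃ τ, HS SP τ ∧ ∀ v, (∀ i, HS SQ (v i)) → v 0 = gN →
  v 1 = lift τ → v 2 = x → ∀ p, Fc (HS SQ) valFm v p

/-- E7 -/
def P_PO : Prop := ∀ v, (∀ i, HS SQ (v i)) → v 0 = lift bN → v 1 = lift rN → v 2 = gN → ∀ p,
  Fc (HS SQ) poFm v p ∧ Fc (HS SQ) filFm v p

/-- E8 -/
def P_GEN : Prop := ∀ v, (∀ i, HS SQ (v i)) → v 0 = lift bN → v 1 = lift rN → v 2 = gN →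
  VN (v 3) → ∀ p, Fc (HS SQ) genFm v p

/-- E9 -/
def P_SATF : Prop := ∀ (M : Type 1) [LSet.Structure M] (v : ℕ → M),
  (SatR Mem (fun _ => True) valFm v → IsValue (v 0) (v 1) (v 2)) ∧
  (SatR Mem (fun _ => True) poFm v → IsForcing (v 0) (v 1)) ∧
  (∀ V : Set M, (∃ d, d ∈ V) → (∀ d, d ∈ V →
      SatR Mem (fun _ => True) filFm (Function.update v 3 d) ∧
      SatR Mem (fun _ => True) genFm (Function.update v 3 d)) →
    IsGeneric V (v 0) (v 1) (v 2))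

/-! ### F. The twist -/

/-- F1 -/
def P_SIG : Prop := ∀ β, ∃ s : QQ ≃o QQ, IsSig β s ∧ s * s = 1 ∧
  (∀ x, HS SQ x → HS SQ (act s x)) ∧ ∀ x : Nm PP, Liv SP β x → act s (lift x) = lift x

/-- F2 -/
def P_TAU : Prop := ∀ n, ∃ t : QQ ≃o QQ, IsTau n t ∧ t * t = 1 ∧
  ∀ x : Nm PP, act t (lift x) = lift x

/-- F3 -/
def P_ON : Prop := ∃ on : Ordinal.{0} → PSet.{0}, ∀ o o', (on o).Equiv (on o') → o = o'

/-- F4 -/
def P_SEQ1 : Prop := ∀ (on : Ordinal.{0} → PSet.{0}) β, HS SP (sN on β)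

/-- F5 -/
def P_SEQ2 : Prop := ∀ (on : Ordinal.{0} → PSet.{0}),
  (∀ o o', (on o).Equiv (on o') → o = o') → ∀ β n p,
    ¬ feq (aN on β n false) (aN on β n true) p

/-- F6 -/
def P_SEQ3 : Prop := ∀ (on : Ordinal.{0} → PSet.{0}),
  (∀ o o', (on o).Equiv (on o') → o = o') → ∀ β (s : QQ ≃o QQ), IsSig β s → s * s = 1 →
    ∀ n (t : QQ ≃o QQ), IsTau n t → t * t = 1 → ∀ r : QQ, n < r.c.l.length →
      ¬ feq (act s (lift (sN on β))) (act t (act s (lift (sN on β)))) r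

/-- F7 -/
def P_ND : Prop := ∀ (φ : Fm) (v : ℕ → Nm PP), (∀ i, HS SP (v i)) → ∀ q : QQ, ∃ r, r ≤ q ∧
  ∃ x, HS SQ x ∧
    ((VN x ∧ ∀ s, s ≤ r → ¬ Fc (HS SQ) φ (Function.update (fun i => lift (v i)) 0 x) s) ∨
     (Fc (HS SQ) φ (Function.update (fun i => lift (v i)) 0 x) r ∧
        ∀ s, s ≤ r → ∀ y, HS SP y → ¬ feq x (lift y) s))

/-! ### G. The theorem -/

/-- A generic object with a countable set of names. -/
structure GO (G : Set QQ) (D0 : Nm QQ → Prop) : Prop where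
  fil : IsFil G
  hs : ∀ x, D0 x → HS SQ x
  gen : Gen (HS SQ) G D0
  genV : Gen VN G (fun x => D0 x ∧ VN x)
  b : D0 (lift bN)
  r : D0 (lift rN)
  g : D0 gN
  tra : ∀ x y, D0 x → D0 y → VN y → (∃ p, p ∈ G ∧ fmem x y p) →
    ∃ z, D0 z ∧ VN z ∧ ∃ p, p ∈ G ∧ feq x z p
  val : ∀ x, D0 x → ∃ τ, HS SP τ ∧ D0 (lift τ) ∧ ∀ v, (∀ i, HS SQ (v i)) → v 0 = gN →
    v 1 = lift τ → v 2 = x → ∀ p, Fc (HS SQ) valFm v p
  nd : ∀ (φ : Fm) v, (∀ i, D0 (v i) ∧ VN (v i)) → ∃ x, D0 x ∧ ∃ p, p ∈ G ∧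
    ((VN x ∧ ∀ s, s ≤ p → ¬ Fc (HS SQ) φ (Function.update v 0 x) s) ∨
     (Fc (HS SQ) φ (Function.update v 0 x) p ∧
        ∀ s, s ≤ p → ∀ y, HS SP y → ¬ feq x (lift y) s))

/-- G1 -/
def P_GO : Prop := ∃ G D0, GO G D0

/-- G2 -/
def P_ZFF : Prop := ∀ (P : Type 1) [PartialOrder P] [OrderTop P] (S : SysData P), SysAx S → Pow S →
  ∀ σ, Fm.IsAx σ → ∀ v, (∀ i, HS S (v i)) → ∀ p, Fc (HS S) σ v p

def P_MAIN : Prop := ∃ (M : Type 1) (_ : LSet.Structure M) (V : Set M) (b r g : M),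
  ZF M ∧ ZF V ∧ (∀ x, x ∈ V → ∀ y, Mem y x → y ∈ V) ∧ b ∈ V ∧ r ∈ V ∧
  IsForcing b r ∧ IsGeneric V b r g ∧ (∀ x, ∃ τ, τ ∈ V ∧ IsValue g τ x) ∧
  ¬ V.Definable₁ LSet V

end Pool.Agent.W477.GM
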